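import Pool.Agent.H58.SF.Targets

/-!
# Two-dimensional potentials: definitions and the closed cochain

Homomorphisms from powers of an odd cycle to a graph with a two-dimensional potential.
-/

set_option autoImplicit false

namespace Pool.Agent.H50.TP

open Pool.Agent.H68.BP Pool.Agent.H58.SF

/-- Two-dimensional potential of a symmetric relation `R`: an orientation `g` of the edges and a
function `c` on the closed walks `(a, b, a', b')` of length four, additive in both pairs, such that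
the number of the edges from `{a, a'}` to `{b, b'}` is `c (a, a'; b, b') + c (b, b'; a, a')`
modulo two. -/
def TwoPotential {T : Type} (R : T → T → Prop) : Prop :=
  ∃ (g : T → T → ZMod 2) (c : T → T → T → T → ZMod 2),
    (∀ u v, R u v → g u v + g v u = 1) ∧
    (∀ a a' b b', R a b → R a b' → R a' b → R a' b' →
      g a b + g a b' + g a' b + g a' b' = c a a' b b' + c b b' a a') ∧
    (∀ a a' a'' b b', R a b → R a b' → R a' b → R a' b' → R a'' b → R a'' b' →
      c a a' b b' + c a' a'' b b' = c a a'' b b') ∧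
    (∀ a a' b b' b'', R a b → R a b' → R a b'' → R a' b → R a' b' → R a' b'' →
      c a a' b b' + c a a' b' b'' = c a a' b b'')

/-! ### The cycle -/

/-- the vertex at the even side of the edge number `t` -/
def ae (k t : ℕ) : ZMod k := if Even t then (t : ZMod k) else (t : ZMod k) + 1

/-- the vertex at the odd side of the edge number `t` -/
def be (k t : ℕ) : ZMod k := if Even t then (t : ZMod k) + 1 else (t : ZMod k)

theorem cyc_ae_be (k s t t' : ℕ) (ht : s ≤ t) (ht2 : t ≤ s + 1) (ht' : s ≤ t')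
    (ht2' : t' ≤ s + 1) : cyc k (ae k t) (be k t') := by
  have h1 : t = s ∨ t = s + 1 := by omega
  have h2 : t' = s ∨ t' = s + 1 := by omega
  unfold cyc ae be
  rcases Nat.even_or_odd s with hs | hs
  · have hs1 : ¬ Even (s + 1) := by rw [Nat.even_add_one]; exact not_not.2 hs
    rcases h1 with rfl | rfl <;> rcases h2 with rfl | rfl
    · left; rw [if_pos hs, if_pos hs]
    · left; rw [if_pos hs, if_neg hs1]; push_cast; ring
    · right; rw [if_neg hs1, if_pos hs]; push_cast; ring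
    · right; rw [if_neg hs1, if_neg hs1]
  · have hs0 : ¬ Even s := Nat.not_even_iff_odd.2 hs
    have hs1 : Even (s + 1) := hs.add_one
    rcases h1 with rfl | rfl <;> rcases h2 with rfl | rfl
    · right; rw [if_neg hs0, if_neg hs0]
    · left; rw [if_neg hs0, if_pos hs1]; push_cast; ring
    · right; rw [if_pos hs1, if_neg hs0]; push_cast; ring
    · left; rw [if_pos hs1, if_pos hs1]

theorem ae_add_two_mul (k t m : ℕ) : ae k (t + 2 * k * m) = ae k t := by
  unfold ae
  have h : Even (t + 2 * k * m) ↔ Even t := by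
    rw [Nat.even_add]
    have : Even (2 * k * m) := ⟨k * m, by ring⟩
    tauto
  simp only [h]
  push_cast
  simp

theorem be_add_two_mul (k t m : ℕ) : be k (t + 2 * k * m) = be k t := by
  unfold be
  have h : Even (t + 2 * k * m) ↔ Even t := by
    rw [Nat.even_add]
    have : Even (2 * k * m) := ⟨k * m, by ring⟩
    tauto
  simp only [h]
  push_cast
  simp

theorem ae_add_self {k : ℕ} (hk : Odd k) (t : ℕ) : ae k (t + k) = be k t := by
  unfold ae be
  rcases Nat.even_or_odd t with ht | ht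
  · rw [if_pos ht, if_neg (Nat.not_even_iff_odd.2 (ht.add_odd hk))]
    push_cast
    simp
  · rw [if_neg (Nat.not_even_iff_odd.2 ht), if_pos (ht.add_odd hk)]
    push_cast
    simp

theorem be_add_self {k : ℕ} (hk : Odd k) (t : ℕ) : be k (t + k) = ae k t := by
  unfold ae be
  rcases Nat.even_or_odd t with ht | ht
  · rw [if_pos ht, if_neg (Nat.not_even_iff_odd.2 (ht.add_odd hk))]
    push_cast
    simp
  · rw [if_neg (Nat.not_even_iff_odd.2 ht), if_pos (ht.add_odd hk)]
    push_cast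
    simp

/-! ### The cochain -/

/-- the data: the vertices at both sides -/
structure Dat (I T : Type) where
  A : (I → ℕ) → T
  B : (I → ℕ) → T

/-- shift -/
def sh {I : Type} (p : I → ℕ) (s : ℕ) : I → ℕ := fun i => p i + s

/-- cut -/
def ct {I : Type} (p : I → ℕ) (j : ℕ) : I → ℕ := fun i => min (p i) j

/-- the data of a function -/
def dat {I T : Type} (k : ℕ) (f : (I → ZMod k) → T) : Dat I T where
  A p := f (fun i => ae k (p i))
  B p := f (fun i => be k (p i))

variable {I T : Type}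

/-- the unit cubes are mapped to complete bipartite graphs -/
def Good (R : T → T → Prop) (D : Dat I T) : Prop :=
  ∀ p q q' : I → ℕ, p ≤ q → q ≤ sh p 1 → p ≤ q' → q' ≤ sh p 1 → R (D.A q) (D.B q')

theorem good_dat {R : T → T → Prop} {k : ℕ} {f : (I → ZMod k) → T}
    (hf : IsPoly (graph (cyc k)) (graph R) f) : Good R (dat k f) := by
  intro p q q' h1 h2 h3 h4
  refine hf (show Fin Sig.digraph.m from (0 : Fin 1))
    (fun i => (![ae k (q i), be k (q' i)] : Fin 2 → ZMod k)) (fun i => ?_)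
  exact cyc_ae_be k (p i) (q i) (q' i) (h1 i) (h2 i) (h3 i) (h4 i)

/-- the square term -/
def cc (c : T → T → T → T → ZMod 2) (D : Dat I T) (p q r : I → ℕ) : ZMod 2 :=
  c (D.A q) (D.A r) (D.B p) (D.B q)

/-- the strip -/
def st (c : T → T → T → T → ZMod 2) (D : Dat I T) (p q : I → ℕ) : ZMod 2 :=
  cc c D p q (sh p 1) + cc c D q (sh p 1) (sh q 1)

/-- the cochain -/
def Ph (k : ℕ) (g : T → T → ZMod 2) (c : T → T → T → T → ZMod 2) (D : Dat I T)
    (p q : I → ℕ) : ZMod 2 :=
  g (D.A p) (D.B p) + g (D.A q) (D.B p) + c (D.B p) (D.B q) (D.A p) (D.A q) +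
    ∑ s ∈ Finset.range k, st c D (sh p s) (sh q s)

/-- The data of a potential. -/
structure Pot (R : T → T → Prop) (g : T → T → ZMod 2) (c : T → T → T → T → ZMod 2) : Prop where
  symm : ∀ u v, R u v → R v u
  ori : ∀ u v, R u v → g u v + g v u = 1
  sq : ∀ a a' b b', R a b → R a b' → R a' b → R a' b' →
      g a b + g a b' + g a' b + g a' b' = c a a' b b' + c b b' a a'
  add1 : ∀ a a' a'' b b', R a b → R a b' → R a' b → R a' b' → R a'' b → R a'' b' →
      c a a' b b' + c a' a'' b b' = c a a'' b b'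
  add2 : ∀ a a' b b' b'', R a b → R a b' → R a b'' → R a' b → R a' b' → R a' b'' →
      c a a' b b' + c a a' b' b'' = c a a' b b''

variable {R : T → T → Prop} {g : T → T → ZMod 2} {c : T → T → T → T → ZMod 2}

theorem Pot.zero1 (h : Pot R g c) {a b b' : T} (h1 : R a b) (h2 : R a b') :
    c a a b b' = 0 := by
  have := h.add1 a a a b b' h1 h2 h1 h2 h1 h2
  simpa using this

theorem Pot.zero2 (h : Pot R g c) {a a' b : T} (h1 : R a b) (h2 : R a' b) :
    c a a' b b = 0 := by
  have := h.add2 a a' b b b h1 h1 h1 h2 h2 h2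
  simpa using this

theorem z2 (x : ZMod 2) : x + x = 0 := CharTwo.add_self_eq_zero x

/-- closedness of the square term -/
theorem cc_closed (h : Pot R g c) {D : Dat I T} (hD : Good R D) {p q r s : I → ℕ}
    (h1 : p ≤ q) (h2 : q ≤ r) (h3 : r ≤ s) (h4 : s ≤ sh p 1) :
    cc c D q r s + cc c D p r s + cc c D p q s + cc c D p q r = 0 := by
  have hp : p ≤ sh p 1 := fun i => Nat.le_succ _
  have hq1 : q ≤ sh p 1 := h2.trans (h3.trans h4)
  have hr1 : r ≤ sh p 1 := h3.trans h4
  have hR : ∀ x y, p ≤ x → x ≤ sh p 1 → p ≤ y → y ≤ sh p 1 → R (D.A x) (D.B y) :=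
    fun x y a b d e => hD p x y a b d e
  have e1 := h.add2 (D.A r) (D.A s) (D.B p) (D.B q) (D.B r)
    (hR r p (h1.trans h2) hr1 le_rfl hp) (hR r q (h1.trans h2) hr1 h1 hq1)
    (hR r r (h1.trans h2) hr1 (h1.trans h2) hr1)
    (hR s p (h1.trans (h2.trans h3)) h4 le_rfl hp) (hR s q (h1.trans (h2.trans h3)) h4 h1 hq1)
    (hR s r (h1.trans (h2.trans h3)) h4 (h1.trans h2) hr1)
  have e2 := h.add1 (D.A q) (D.A r) (D.A s) (D.B p) (D.B q)
    (hR q p h1 hq1 le_rfl hp) (hR q q h1 hq1 h1 hq1)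
    (hR r p (h1.trans h2) hr1 le_rfl hp) (hR r q (h1.trans h2) hr1 h1 hq1)
    (hR s p (h1.trans (h2.trans h3)) h4 le_rfl hp) (hR s q (h1.trans (h2.trans h3)) h4 h1 hq1)
  unfold cc
  have z1 := z2 (c (D.A r) (D.A s) (D.B p) (D.B q))
  have z3 := z2 (c (D.A r) (D.A s) (D.B q) (D.B r))
  have z4 := z2 (c (D.A q) (D.A r) (D.B p) (D.B q))
  rw [← e1, ← e2]
  linear_combination z1 + z3 + z4

theorem sh_zero (p : I → ℕ) : sh p 0 = p := rfl

theorem sh_sh (p : I → ℕ) (s t : ℕ) : sh (sh p s) t = sh p (s + t) := by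
  funext i; simp [sh, add_assoc]

theorem sh_mono {p q : I → ℕ} (h : p ≤ q) (s : ℕ) : sh p s ≤ sh q s :=
  fun i => Nat.add_le_add_right (h i) s

/-- the prism -/
theorem prism (h : Pot R g c) {D : Dat I T} (hD : Good R D) {p q r : I → ℕ}
    (h1 : p ≤ q) (h2 : q ≤ r) (h3 : r ≤ sh p 1) :
    st c D p q + st c D q r + st c D p r = cc c D p q r + cc c D (sh p 1) (sh q 1) (sh r 1) := by
  have hp : p ≤ sh p 1 := fun i => Nat.le_succ _
  have hpq := sh_mono h1 1
  have hqr := sh_mono h2 1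
  have t1 := cc_closed h hD h1 h2 h3 le_rfl
  have t2 := cc_closed h hD h2 h3 hpq le_rfl
  have t3 := cc_closed h hD h3 hpq hqr le_rfl
  unfold st
  have a1 := z2 (cc c D q r (sh p 1))
  have a2 := z2 (cc c D r (sh p 1) (sh q 1))
  have a3 := z2 (cc c D p q r)
  have a4 := z2 (cc c D (sh p 1) (sh q 1) (sh r 1))
  linear_combination t1 + t2 + t3 - a1 - a2 - a3 - a4

/-- symmetry of the data under the half turn -/
structure Sym (k : ℕ) (D : Dat I T) : Prop where
  A : ∀ p, D.A (sh p k) = D.B p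
  B : ∀ p, D.B (sh p k) = D.A p

theorem sym_dat {k : ℕ} (hk : Odd k) (f : (I → ZMod k) → T) : Sym k (dat k f) where
  A p := by
    show f _ = f _
    congr 1
    funext i
    exact ae_add_self hk (p i)
  B p := by
    show f _ = f _
    congr 1
    funext i
    exact be_add_self hk (p i)

theorem sum_strips (h : Pot R g c) {D : Dat I T} (hD : Good R D) {p q r : I → ℕ}
    (h1 : p ≤ q) (h2 : q ≤ r) (h3 : r ≤ sh p 1) (k : ℕ) :
    (∑ s ∈ Finset.range k, st c D (sh p s) (sh q s)) +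
      (∑ s ∈ Finset.range k, st c D (sh q s) (sh r s)) +
      (∑ s ∈ Finset.range k, st c D (sh p s) (sh r s)) =
      cc c D p q r + cc c D (sh p k) (sh q k) (sh r k) := by
  induction k with
  | zero => simp [sh_zero, z2]
  | succ k ih =>
    rw [Finset.sum_range_succ, Finset.sum_range_succ, Finset.sum_range_succ]
    have h4 : sh r k ≤ sh (sh p k) 1 := by
      rw [sh_sh, Nat.add_comm k 1, ← sh_sh]
      exact sh_mono h3 k
    have e := prism h hD (sh_mono h1 k) (sh_mono h2 k) h4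
    rw [sh_sh, sh_sh, sh_sh] at e
    have a1 := z2 (cc c D (sh p k) (sh q k) (sh r k))
    linear_combination ih + e + a1

/-- the cochain is closed -/
theorem Ph_closed (h : Pot R g c) {D : Dat I T} (hD : Good R D) {k : ℕ} (hs : Sym k D)
    {p q r : I → ℕ} (h1 : p ≤ q) (h2 : q ≤ r) (h3 : r ≤ sh p 1) :
    Ph k g c D p q + Ph k g c D q r = Ph k g c D p r := by
  have hp : p ≤ sh p 1 := fun i => Nat.le_succ _
  have hq1 : q ≤ sh p 1 := h2.trans h3
  have hR : ∀ x y, p ≤ x → x ≤ sh p 1 → p ≤ y → y ≤ sh p 1 → R (D.A x) (D.B y) :=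
    fun x y a b d e => hD p x y a b d e
  have hr0 := h1.trans h2
  have hsum := sum_strips h hD h1 h2 h3 k
  have hcck : cc c D (sh p k) (sh q k) (sh r k) = c (D.B q) (D.B r) (D.A p) (D.A q) := by
    unfold cc
    rw [hs.A, hs.A, hs.B, hs.B]
  rw [hcck] at hsum
  have hS : ∀ x y, p ≤ x → x ≤ sh p 1 → p ≤ y → y ≤ sh p 1 → R (D.B x) (D.A y) :=
    fun x y a b d e => h.symm _ _ (hD p y x d e a b)
  have sq := h.sq (D.A q) (D.A r) (D.B p) (D.B q) (hR q p h1 hq1 le_rfl hp) (hR q q h1 hq1 h1 hq1)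
    (hR r p hr0 h3 le_rfl hp) (hR r q hr0 h3 h1 hq1)
  have e1 := h.add1 (D.B p) (D.B q) (D.B r) (D.A p) (D.A r)
    (hS p p le_rfl hp le_rfl hp) (hS p r le_rfl hp hr0 h3)
    (hS q p h1 hq1 le_rfl hp) (hS q r h1 hq1 hr0 h3)
    (hS r p hr0 h3 le_rfl hp) (hS r r hr0 h3 hr0 h3)
  have e2 := h.add2 (D.B p) (D.B q) (D.A p) (D.A q) (D.A r)
    (hS p p le_rfl hp le_rfl hp) (hS p q le_rfl hp h1 hq1) (hS p r le_rfl hp hr0 h3)
    (hS q p h1 hq1 le_rfl hp) (hS q q h1 hq1 h1 hq1) (hS q r h1 hq1 hr0 h3)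
  have e3 := h.add2 (D.B q) (D.B r) (D.A p) (D.A q) (D.A r)
    (hS q p h1 hq1 le_rfl hp) (hS q q h1 hq1 h1 hq1) (hS q r h1 hq1 hr0 h3)
    (hS r p hr0 h3 le_rfl hp) (hS r q hr0 h3 h1 hq1) (hS r r hr0 h3 hr0 h3)
  unfold Ph
  have hcc : cc c D p q r = c (D.A q) (D.A r) (D.B p) (D.B q) := rfl
  rw [hcc] at hsum
  rw [← e1, ← e2, ← e3]
  generalize (∑ s ∈ Finset.range k, st c D (sh p s) (sh q s)) = S1 at *
  generalize (∑ s ∈ Finset.range k, st c D (sh q s) (sh r s)) = S2 at *
  generalize (∑ s ∈ Finset.range k, st c D (sh p s) (sh r s)) = S3 at *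
  generalize c (D.A q) (D.A r) (D.B p) (D.B q) = x1 at *
  generalize c (D.B p) (D.B q) (D.A p) (D.A q) = x2 at *
  generalize c (D.B p) (D.B q) (D.A q) (D.A r) = x3 at *
  generalize c (D.B q) (D.B r) (D.A p) (D.A q) = x4 at *
  generalize c (D.B q) (D.B r) (D.A q) (D.A r) = x5 at *
  generalize g (D.A p) (D.B p) = g1 at *
  generalize g (D.A q) (D.B p) = g2 at *
  generalize g (D.A q) (D.B q) = g3 at *
  generalize g (D.A r) (D.B q) = g4 at *
  generalize g (D.A r) (D.B p) = g5 at *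
  clear e1 e2 e3
  have hz : ∀ x : ZMod 2, x + x = 0 := z2
  linear_combination sq + hsum + hz x1 - hz S3 - hz g5

end Pool.Agent.H50.TP
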