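import Pool.Agent.H50.TP.Defs

/-!
# Two-dimensional potentials: examples
-/

set_option autoImplicit false

namespace Pool.Agent.H50.TP

/-- the orientation of the complete graph with four vertices -/
def g4 (u v : Fin 4) : ZMod 2 := if u < v then 1 else 0

/-- the squares of the complete graph with four vertices -/
def c4 (a a' b b' : Fin 4) : ZMod 2 :=
  if a ≠ a' ∧ (a = 0 ∨ a = 2) ∧ (a' = 0 ∨ a' = 2) ∧ b ≠ b' ∧ (b = 1 ∨ b = 3) ∧
    (b' = 1 ∨ b' = 3) then 1 else 0

set_option maxRecDepth 100000 in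
theorem c4_add1 : ∀ a a' a'' b b' : Fin 4, (a ≠ b ∧ a ≠ b' ∧ a' ≠ b ∧ a' ≠ b' ∧ a'' ≠ b ∧ a'' ≠ b') →
    c4 a a' b b' + c4 a' a'' b b' = c4 a a'' b b' := by
  decide

set_option maxRecDepth 100000 in
theorem c4_add2 : ∀ a a' b b' b'' : Fin 4, (a ≠ b ∧ a ≠ b' ∧ a ≠ b'' ∧ a' ≠ b ∧ a' ≠ b' ∧ a' ≠ b'') →
    c4 a a' b b' + c4 a a' b' b'' = c4 a a' b b'' := by
  decide

set_option maxRecDepth 100000 in
/-- the complete graph with four vertices has a two-dimensional potential -/
theorem twoPotential_four : TwoPotential (fun i j : Fin 4 => i ≠ j) := by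
  refine ⟨g4, c4, ?_, ?_, ?_, ?_⟩
  · decide
  · decide
  · exact fun a a' a'' b b' h1 h2 h3 h4 h5 h6 => c4_add1 a a' a'' b b' ⟨h1, h2, h3, h4, h5, h6⟩
  · exact fun a a' b b' b'' h1 h2 h3 h4 h5 h6 => c4_add2 a a' b b' b'' ⟨h1, h2, h3, h4, h5, h6⟩

/-- a hom-preimage of a graph with a two-dimensional potential has one -/
theorem twoPotential_comap {X T : Type} {E : X → X → Prop} {R : T → T → Prop} (r : X → T)
    (hr : ∀ x y, E x y → R (r x) (r y)) (h : TwoPotential R) : TwoPotential E := by
  obtain ⟨g, c, h1, h2, h3, h4⟩ := h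
  refine ⟨fun u v => g (r u) (r v), fun a a' b b' => c (r a) (r a') (r b) (r b'), ?_, ?_, ?_, ?_⟩
  · exact fun u v h => h1 _ _ (hr _ _ h)
  · exact fun a a' b b' x1 x2 x3 x4 => h2 _ _ _ _ (hr _ _ x1) (hr _ _ x2) (hr _ _ x3) (hr _ _ x4)
  · exact fun a a' a'' b b' x1 x2 x3 x4 x5 x6 => h3 _ _ _ _ _ (hr _ _ x1) (hr _ _ x2)
      (hr _ _ x3) (hr _ _ x4) (hr _ _ x5) (hr _ _ x6)
  · exact fun a a' b b' b'' x1 x2 x3 x4 x5 x6 => h4 _ _ _ _ _ (hr _ _ x1) (hr _ _ x2)
      (hr _ _ x3) (hr _ _ x4) (hr _ _ x5) (hr _ _ x6)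

open scoped Classical in
/-- the squares of a graph without `K_{2,3}` -/
noncomputable def cl {T : Type} [LinearOrder T] (a a' b b' : T) : ZMod 2 :=
  if a ≠ a' ∧ b ≠ b' ∧ min a a' < min b b' then
    (if a < b then 1 else 0) + (if a < b' then 1 else 0) + (if a' < b then 1 else 0) +
      (if a' < b' then 1 else 0) else 0

theorem cl_symm1 {T : Type} [LinearOrder T] (a a' b b' : T) : cl a' a b b' = cl a a' b b' := by
  unfold cl
  rw [min_comm a' a]
  by_cases h : a ≠ a' ∧ b ≠ b' ∧ min a a' < min b b'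
  · rw [if_pos h, if_pos ⟨h.1.symm, h.2⟩]
    ring
  · rw [if_neg h, if_neg fun h' => h ⟨h'.1.symm, h'.2⟩]

theorem cl_symm2 {T : Type} [LinearOrder T] (a a' b b' : T) : cl a a' b' b = cl a a' b b' := by
  unfold cl
  rw [min_comm b' b]
  by_cases h : a ≠ a' ∧ b ≠ b' ∧ min a a' < min b b'
  · rw [if_pos h, if_pos ⟨h.1, h.2.1.symm, h.2.2⟩]
    ring
  · rw [if_neg h, if_neg fun h' => h ⟨h'.1, h'.2.1.symm, h'.2.2⟩]

theorem cl_zero1 {T : Type} [LinearOrder T] (a b b' : T) : cl a a b b' = 0 := by
  unfold cl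
  simp

theorem cl_zero2 {T : Type} [LinearOrder T] (a a' b : T) : cl a a' b b = 0 := by
  unfold cl
  simp

theorem z2' (x : ZMod 2) : x + x = 0 := CharTwo.add_self_eq_zero x

/-- graphs without loops in which no two vertices have three common neighbours have a
two-dimensional potential -/
theorem twoPotential_of_no_K23 {T : Type} {R : T → T → Prop} (hs : ∀ u v, R u v → R v u)
    (hl : ∀ u, ¬ R u u)
    (h : ∀ a a' a'' b b', b ≠ b' → R a b → R a b' → R a' b → R a' b' → R a'' b → R a'' b' →
      a = a' ∨ a' = a'' ∨ a = a'') : TwoPotential R := by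
  classical
  obtain ⟨_⟩ : Nonempty (LinearOrder T) := ⟨linearOrderOfSTO (WellOrderingRel (α := T))⟩
  have hne : ∀ u v, R u v → u ≠ v := fun u v h he => hl u (by rw [he] at h ⊢; exact h)
  have hor : ∀ u v, R u v → (if u < v then (1 : ZMod 2) else 0) + (if v < u then 1 else 0) = 1 := by
    intro u v huv
    rcases lt_or_gt_of_ne (hne u v huv) with hlt | hlt
    · rw [if_pos hlt, if_neg (not_lt_of_gt hlt), add_zero]
    · rw [if_neg (not_lt_of_gt hlt), if_pos hlt, zero_add]
  refine ⟨fun u v => if u < v then 1 else 0, cl, hor, ?_, ?_, ?_⟩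
  · intro a a' b b' h1 h2 h3 h4
    simp only
    by_cases ha : a = a'
    · subst ha
      rw [cl_zero1, cl_zero2]
      linear_combination z2' (if a < b then (1 : ZMod 2) else 0) +
        z2' (if a < b' then (1 : ZMod 2) else 0)
    · by_cases hb : b = b'
      · subst hb
        rw [cl_zero1, cl_zero2]
        linear_combination z2' (if a < b then (1 : ZMod 2) else 0) +
          z2' (if a' < b then (1 : ZMod 2) else 0)
      · have hmin : min a a' ≠ min b b' := by
          rcases min_choice a a' with e | e <;> rcases min_choice b b' with e' | e' <;>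
            rw [e, e']
          · exact hne _ _ h1
          · exact hne _ _ h2
          · exact hne _ _ h3
          · exact hne _ _ h4
        have o1 := hor _ _ h1
        have o2 := hor _ _ h2
        have o3 := hor _ _ h3
        have o4 := hor _ _ h4
        rcases lt_or_gt_of_ne hmin with hlt | hlt
        · have e1 : cl a a' b b' = (if a < b then 1 else 0) + (if a < b' then 1 else 0) +
              (if a' < b then 1 else 0) + (if a' < b' then 1 else 0) := if_pos ⟨ha, hb, hlt⟩
          have e2 : cl b b' a a' = 0 := if_neg fun h => not_lt_of_gt hlt h.2.2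
          rw [e1, e2, add_zero]
        · have e1 : cl b b' a a' = (if b < a then 1 else 0) + (if b < a' then 1 else 0) +
              (if b' < a then 1 else 0) + (if b' < a' then 1 else 0) := if_pos ⟨hb, ha, hlt⟩
          have e2 : cl a a' b b' = 0 := if_neg fun h => not_lt_of_gt hlt h.2.2
          rw [e1, e2, zero_add]
          have hh : (4 : ZMod 2) = 0 := rfl
          linear_combination o1 + o2 + o3 + o4 + hh -
            z2' (if b < a then (1 : ZMod 2) else 0) - z2' (if b < a' then (1 : ZMod 2) else 0) -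
            z2' (if b' < a then (1 : ZMod 2) else 0) - z2' (if b' < a' then (1 : ZMod 2) else 0)
  · intro a a' a'' b b' h1 h2 h3 h4 h5 h6
    by_cases hb : b = b'
    · subst hb
      rw [cl_zero2, cl_zero2, cl_zero2, add_zero]
    · rcases h a a' a'' b b' hb h1 h2 h3 h4 h5 h6 with e | e | e
      · subst e
        rw [cl_zero1, zero_add]
      · subst e
        rw [cl_zero1, add_zero]
      · subst e
        rw [cl_zero1, cl_symm1 a a', z2']
  · intro a a' b b' b'' h1 h2 h3 h4 h5 h6
    by_cases ha : a = a'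
    · subst ha
      rw [cl_zero1, cl_zero1, cl_zero1, add_zero]
    · rcases h b b' b'' a a' ha (hs _ _ h1) (hs _ _ h4) (hs _ _ h2) (hs _ _ h5) (hs _ _ h3)
        (hs _ _ h6) with e | e | e
      · subst e
        rw [cl_zero2, zero_add]
      · subst e
        rw [cl_zero2, add_zero]
      · subst e
        rw [cl_zero2, cl_symm2 a a' b b', z2']

end Pool.Agent.H50.TP
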