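import Pool.Agent.H50.TP.Main

/-!
# Two-dimensional potentials: the odd coordinates
-/

set_option autoImplicit false

namespace Pool.Agent.H50.TP

open Pool.Agent.H68.BP Pool.Agent.H58.SF

variable {I J T : Type}
variable {R : T → T → Prop} {g : T → T → ZMod 2} {c : T → T → T → T → ZMod 2}

/-! ### Additivity and naturality -/

open scoped Classical in
/-- the parity of a set of coordinates -/
noncomputable def par (k : ℕ) (g : T → T → ZMod 2) (c : T → T → T → T → ZMod 2)
    (f : (I → ZMod k) → T) (X : Set I) : ZMod 2 :=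
  ph k g c (dat k f) (2 * k) (fun i => 2 * k * (if i ∈ X then 1 else 0))

theorem par_union {k : ℕ} {f : (I → ZMod k) → T} (h : Ctx R g c k (dat k f)) {X Y : Set I}
    (hXY : Disjoint X Y) : par k g c f (X ∪ Y) = par k g c f X + par k g c f Y := by
  classical
  have h1 := ph_add h (fun i => 2 * k * (if i ∈ X then 1 else 0))
    (fun i => if i ∈ Y then 1 else 0) (M := 2 * k) (by
      intro i
      by_cases hX : i ∈ X
      · have hY : i ∉ Y := Set.disjoint_left.1 hXY hX
        simp [hX, hY]
      · by_cases hY : i ∈ Y <;> simp [hX, hY])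
  unfold par
  rw [← h1]
  congr 1
  funext i
  by_cases hX : i ∈ X
  · have hY : i ∉ Y := Set.disjoint_left.1 hXY hX
    simp [hX, hY]
  · by_cases hY : i ∈ Y <;> simp [hX, hY]

theorem par_empty {k : ℕ} {f : (I → ZMod k) → T} (h : Ctx R g c k (dat k f)) :
    par k g c f ∅ = 0 := by
  have := par_union h (X := ∅) (Y := ∅) (by simp)
  simpa using this

theorem par_univ {k : ℕ} (hk : Odd k) {f : (I → ZMod k) → T} (h : Ctx R g c k (dat k f)) :
    par k g c f Set.univ = 1 := by
  rw [← ph_total hk h]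
  unfold par
  congr 1
  funext i
  simp

theorem par_exists {k : ℕ} {f : (I → ZMod k) → T} (h : Ctx R g c k (dat k f)) (X : Set I)
    (hX : X.Finite) (h1 : par k g c f X ≠ 0) : ∃ i ∈ X, par k g c f {i} ≠ 0 := by
  by_contra hcon
  push Not at hcon
  refine h1 ?_
  clear h1
  induction X, hX using Set.Finite.induction_on with
  | empty => exact par_empty h
  | @insert a s ha hs ih =>
    rw [Set.insert_eq, par_union h (Set.disjoint_singleton_left.2 ha),
      hcon a (Set.mem_insert a s), zero_add]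
    exact ih fun i hi => hcon i (Set.mem_insert_of_mem a hi)

theorem par_minor {k : ℕ} (π : I → J) (f : (I → ZMod k) → T) (X : Set J) :
    par k g c (minor π f) X = par k g c f (π ⁻¹' X) := rfl

/-! ### The train -/

/-- The train of tokens: `u` has the value `m` at the place `E m`, and `u'` has the value `m + 1`
at the place `E m`, except for the last place. If the function has the same values at the tuples
made from `u` and from `u'`, the last coordinate is even. -/
theorem train {k : ℕ} (hk : Odd k) {f : (I → ZMod k) → T} (h : Ctx R g c k (dat k f))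
    (E : ℕ → I) (hE : ∀ m m', m < 2 * k → m' < 2 * k → E m = E m' → m = m')
    (u u' : I → ℕ) (hu : ∀ m < 2 * k, u (E m) = m)
    (hu0 : ∀ i, (∀ m < 2 * k, E m ≠ i) → u i = 0)
    (hu' : ∀ m, m + 1 < 2 * k → u' (E m) = m + 1) (hl : u' (E (2 * k - 1)) = 0)
    (hu0' : ∀ i, (∀ m < 2 * k, E m ≠ i) → u' i = 0)
    (H : ∀ θ : ℕ → ZMod k, f (fun i => θ (u i)) = f (fun i => θ (u' i))) :
    par k g c f {E (2 * k - 1)} = 0 := by
  classical
  have hk0 : 0 < k := hk.pos
  have hA : ∀ θ : ℕ → ℕ, (dat k f).A (fun i => θ (u i)) = (dat k f).A (fun i => θ (u' i)) :=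
    fun θ => H fun t => ae k (θ t)
  have hB : ∀ θ : ℕ → ℕ, (dat k f).B (fun i => θ (u i)) = (dat k f).B (fun i => θ (u' i)) :=
    fun θ => H fun t => be k (θ t)
  have hPh : ∀ θ₁ θ₂ : ℕ → ℕ,
      Ph k g c (dat k f) (fun i => θ₁ (u i)) (fun i => θ₂ (u i)) =
      Ph k g c (dat k f) (fun i => θ₁ (u' i)) (fun i => θ₂ (u' i)) := by
    intro θ₁ θ₂
    have hAs : ∀ (θ : ℕ → ℕ) (s : ℕ), (dat k f).A (sh (fun i => θ (u i)) s) =
        (dat k f).A (sh (fun i => θ (u' i)) s) := fun θ s => hA fun t => θ t + s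
    have hBs : ∀ (θ : ℕ → ℕ) (s : ℕ), (dat k f).B (sh (fun i => θ (u i)) s) =
        (dat k f).B (sh (fun i => θ (u' i)) s) := fun θ s => hB fun t => θ t + s
    unfold Ph st cc
    simp only [sh_sh, hAs, hBs]
    rw [hA θ₁, hA θ₂, hB θ₁, hB θ₂]
  have hph : ph k g c (dat k f) (2 * k) u = ph k g c (dat k f) (2 * k) u' :=
    Finset.sum_congr rfl fun j _ => hPh (fun t => min t j) (fun t => min t (j + 1))
  -- the shifted train
  set v : I → ℕ := fun i => u' i + 2 * k * (if i ∈ ({E (2 * k - 1)} : Set I) then 1 else 0)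
    with hv
  have hlast : 2 * k - 1 < 2 * k := by omega
  have hvE : ∀ m < 2 * k, v (E m) = m + 1 := by
    intro m hm
    by_cases hm' : m + 1 < 2 * k
    · have hne : E m ≠ E (2 * k - 1) := by
        intro he
        have := hE m (2 * k - 1) hm hlast he
        omega
      rw [hv]
      simp only [Set.mem_singleton_iff, if_neg hne, mul_zero, add_zero]
      exact hu' m hm'
    · have hme : m = 2 * k - 1 := by omega
      subst hme
      rw [hv]
      simp only [Set.mem_singleton_iff, if_true, hl]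
      omega
  have hv0 : ∀ i, (∀ m < 2 * k, E m ≠ i) → v i = 0 := by
    intro i hi
    have hne : i ≠ E (2 * k - 1) := fun he => hi (2 * k - 1) hlast he.symm
    rw [hv]
    simp only [Set.mem_singleton_iff, if_neg hne, mul_zero, add_zero]
    exact hu0' i hi
  have huv : u ≤ v := by
    intro i
    by_cases hi : ∃ m < 2 * k, E m = i
    · obtain ⟨m, hm, rfl⟩ := hi
      rw [hu m hm, hvE m hm]
      exact Nat.le_succ m
    · push Not at hi
      rw [hu0 i hi, hv0 i hi]
  have hvu : v ≤ sh u 1 := by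
    intro i
    by_cases hi : ∃ m < 2 * k, E m = i
    · obtain ⟨m, hm, rfl⟩ := hi
      simp only [sh]
      rw [hu m hm, hvE m hm]
    · push Not at hi
      rw [hv0 i hi]
      exact Nat.zero_le _
  have hvM : ∀ i, v i ≤ 2 * k := by
    intro i
    by_cases hi : ∃ m < 2 * k, E m = i
    · obtain ⟨m, hm, rfl⟩ := hi
      rw [hvE m hm]
      exact hm
    · push Not at hi
      rw [hv0 i hi]
      exact Nat.zero_le _
  have hAv : ∀ s, (dat k f).A (sh v s) = (dat k f).A (sh u s) := by
    intro s
    have e1 := h.perA (sh u' s) (fun i => if i ∈ ({E (2 * k - 1)} : Set I) then 1 else 0)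
    have e2 : sh v s = fun i => sh u' s i +
        2 * k * (if i ∈ ({E (2 * k - 1)} : Set I) then 1 else 0) := by
      funext i
      simp only [hv, sh]
      ring
    rw [e2, e1]
    exact (hA fun t => t + s).symm
  have hBv : ∀ s, (dat k f).B (sh v s) = (dat k f).B (sh u s) := by
    intro s
    have e1 := h.perB (sh u' s) (fun i => if i ∈ ({E (2 * k - 1)} : Set I) then 1 else 0)
    have e2 : sh v s = fun i => sh u' s i +
        2 * k * (if i ∈ ({E (2 * k - 1)} : Set I) then 1 else 0) := by
      funext i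
      simp only [hv, sh]
      ring
    rw [e2, e1]
    exact (hB fun t => t + s).symm
  have hAv0 : (dat k f).A v = (dat k f).A u := hAv 0
  have hBv0 : (dat k f).B v = (dat k f).B u := hBv 0
  have hRs : ∀ (s : ℕ), R ((dat k f).A (sh u s)) ((dat k f).B (sh u s)) := fun s =>
    h.good (sh u s) _ _ le_rfl (fun i => Nat.le_succ _) le_rfl (fun i => Nat.le_succ _)
  have hRs1 : ∀ (s : ℕ), R ((dat k f).A (sh u (s + 1))) ((dat k f).B (sh u s)) := fun s =>
    h.good (sh u s) _ _ (fun i => Nat.le_succ _) (fun i => le_rfl) le_rfl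
      (fun i => Nat.le_succ _)
  have hRs1' : ∀ (s : ℕ), R ((dat k f).A (sh u s)) ((dat k f).B (sh u (s + 1))) := fun s =>
    h.good (sh u s) _ _ le_rfl (fun i => Nat.le_succ _) (fun i => Nat.le_succ _)
      (fun i => le_rfl)
  have hst : ∀ s, st c (dat k f) (sh u s) (sh v s) = 0 := by
    intro s
    unfold st cc
    rw [sh_sh, sh_sh, hAv, hAv, hBv]
    rw [h.pot.zero2 (hRs s) (hRs1 s), h.pot.zero1 (hRs1 s) (hRs (s + 1)), add_zero]
  have hPhuv : Ph k g c (dat k f) u v = 0 := by
    unfold Ph
    have hR0 : R ((dat k f).A u) ((dat k f).B u) := hRs 0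
    rw [Finset.sum_eq_zero fun s _ => hst s, hAv0, hBv0,
      h.pot.zero1 (h.pot.symm _ _ hR0) (h.pot.symm _ _ hR0), z2]
    rfl
  have hstep := ph_step h huv hvu hvM
  rw [hPhuv] at hstep
  have hadd := ph_add h u' (fun i => if i ∈ ({E (2 * k - 1)} : Set I) then 1 else 0)
    (M := 2 * k) hvM
  have hpar : par k g c f {E (2 * k - 1)} = ph k g c (dat k f) (2 * k)
      (fun i => 2 * k * (if i ∈ ({E (2 * k - 1)} : Set I) then 1 else 0)) := rfl
  rw [hpar]
  have hadd' : ph k g c (dat k f) (2 * k) v = ph k g c (dat k f) (2 * k) u' +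
      ph k g c (dat k f) (2 * k)
      (fun i => 2 * k * (if i ∈ ({E (2 * k - 1)} : Set I) then 1 else 0)) := hadd
  rw [hadd', hph] at hstep
  have z := z2 (ph k g c (dat k f) (2 * k) u')
  linear_combination hstep - z

/-! ### The shift lemma -/

theorem shift_lemma (r : ℕ) : ∀ (C : Type) [Finite C], ∃ N : ℕ,
    ∀ χ : (Fin (r + 1) → ℕ) → C, ∃ j : Fin (r + 2) → ℕ, StrictMono j ∧ (∀ i, j i < N) ∧
      χ (fun i => j i.castSucc) = χ (fun i => j i.succ) := by
  induction r with
  | zero =>
    intro C _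
    have := Fintype.ofFinite C
    refine ⟨Fintype.card C + 1, fun χ => ?_⟩
    obtain ⟨x, y, hxy, he⟩ := Fintype.exists_ne_map_eq_of_card_lt
      (fun x : Fin (Fintype.card C + 1) => χ (fun _ => (x : ℕ))) (by simp)
    have key : ∀ x y : Fin (Fintype.card C + 1), x < y →
        χ (fun _ => (x : ℕ)) = χ (fun _ => (y : ℕ)) →
        ∃ j : Fin 2 → ℕ, StrictMono j ∧ (∀ i, j i < Fintype.card C + 1) ∧
          χ (fun i => j i.castSucc) = χ (fun i => j i.succ) := by
      intro x y hlt he
      refine ⟨![(x : ℕ), (y : ℕ)], ?_, ?_, ?_⟩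
      · rw [Fin.strictMono_iff_lt_succ]
        intro i
        fin_cases i
        exact hlt
      · intro i
        fin_cases i
        · exact x.2
        · exact y.2
      · have e1 : (fun i : Fin 1 => (![(x : ℕ), (y : ℕ)] : Fin 2 → ℕ) i.castSucc) =
            fun _ => (x : ℕ) := by
          funext i; fin_cases i; rfl
        have e2 : (fun i : Fin 1 => (![(x : ℕ), (y : ℕ)] : Fin 2 → ℕ) i.succ) =
            fun _ => (y : ℕ) := by
          funext i; fin_cases i; rfl
        rw [e1, e2, he]
    rcases lt_or_gt_of_ne hxy with hlt | hlt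
    · exact key x y hlt he
    · exact key y x hlt he.symm
  | succ r ih =>
    intro C _
    obtain ⟨N, hN⟩ := ih (Set C)
    refine ⟨N, fun χ => ?_⟩
    obtain ⟨j, hj, hjN, he⟩ := hN fun y => {x | ∃ j₀ < y 0, χ (Fin.cons j₀ y) = x}
    have hmem : χ j ∈ {x | ∃ j₀ < (fun i : Fin (r + 1) => j i.succ) 0,
        χ (Fin.cons j₀ fun i : Fin (r + 1) => j i.succ) = x} := by
      refine ⟨j 0, hj (by simp), ?_⟩
      congr 1
      funext i
      refine Fin.cases ?_ (fun i => ?_) i
      · rfl
      · rfl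
    have he' : ({x | ∃ j₀ < (fun i : Fin (r + 1) => j i.castSucc) 0,
        χ (Fin.cons j₀ fun i : Fin (r + 1) => j i.castSucc) = x} : Set C) =
        {x | ∃ j₀ < (fun i : Fin (r + 1) => j i.succ) 0,
        χ (Fin.cons j₀ fun i : Fin (r + 1) => j i.succ) = x} := he
    rw [← he'] at hmem
    obtain ⟨j₀, hj₀, hχ⟩ := hmem
    refine ⟨Fin.cons j₀ j, ?_, ?_, ?_⟩
    · rw [Fin.strictMono_iff_lt_succ]
      intro i
      refine Fin.cases ?_ (fun i => ?_) i
      · exact hj₀
      · rw [← Fin.succ_castSucc, Fin.cons_succ, Fin.cons_succ]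
        exact hj (Fin.castSucc_lt_succ)
    · intro i
      refine Fin.cases ?_ (fun i => ?_) i
      · rw [Fin.cons_zero]
        exact hj₀.trans (hjN _)
      · rw [Fin.cons_succ]
        exact hjN i
    · have e1 : (fun i : Fin (r + 2) => (Fin.cons j₀ j : Fin (r + 3) → ℕ) i.castSucc) =
          Fin.cons j₀ fun i : Fin (r + 1) => j i.castSucc := by
        funext i
        refine Fin.cases ?_ (fun i => ?_) i
        · rfl
        · rw [← Fin.succ_castSucc, Fin.cons_succ, Fin.cons_succ]
      have e2 : (fun i : Fin (r + 2) => (Fin.cons j₀ j : Fin (r + 3) → ℕ) i.succ) = j := by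
        funext i
        rw [Fin.cons_succ]
      rw [e1, e2, hχ]


/-! ### Bounded selection -/

open scoped Classical in
/-- the letters of a word -/
noncomputable def wd {s : ℕ} (e : ℕ → I) (y : Fin s → ℕ) (i : I) : Fin (s + 1) :=
  if h : ∃ m, e (y m) = i then (h.choose).succ else 0

theorem wd_eq {s : ℕ} {e : ℕ → I} {y : Fin s → ℕ} (h : Function.Injective fun m => e (y m))
    (m : Fin s) : wd e y (e (y m)) = m.succ := by
  have hex : ∃ m', e (y m') = e (y m) := ⟨m, rfl⟩
  unfold wd
  rw [dif_pos hex]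
  congr 1
  exact h hex.choose_spec

theorem wd_zero {s : ℕ} {e : ℕ → I} {y : Fin s → ℕ} {i : I} (h : ∀ m, e (y m) ≠ i) :
    wd e y i = 0 := by
  unfold wd
  rw [dif_neg]
  rintro ⟨m, hm⟩
  exact h m hm

theorem isPoly_minor {k : ℕ} {π : I → J} {f : (I → ZMod k) → T}
    (hf : IsPoly (graph (cyc k)) (graph R) f) :
    IsPoly (graph (cyc k)) (graph R) (minor π f) :=
  fun l x hx => hf l (fun i => x (π i)) fun i => hx (π i)

theorem sel_bound [Finite T] (h : Pot R g c) (n : ℕ) : ∃ N : ℕ, ∀ (I : Type) [Finite I]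
    (f : (I → ZMod (2 * n + 1)) → T), IsPoly (graph (cyc (2 * n + 1))) (graph R) f →
    {i | par (2 * n + 1) g c f {i} ≠ 0}.ncard ≤ N := by
  have hk : Odd (2 * n + 1) := ⟨n, rfl⟩
  obtain ⟨N, hN⟩ := shift_lemma (4 * n) ((Fin (4 * n + 2) → ZMod (2 * n + 1)) → T)
  refine ⟨N, fun I _ f hf => ?_⟩
  by_contra hcon
  push Not at hcon
  have hctx : Ctx R g c (2 * n + 1) (dat (2 * n + 1) f) := ctx_dat h hk hf
  set S : Set I := {i | par (2 * n + 1) g c f {i} ≠ 0} with hS
  have hfin : Finite S := inferInstance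
  have hcard : N < Nat.card S := hcon
  let eqv := Finite.equivFin S
  have hne : Nonempty I := by
    have : Nonempty S := (Nat.card_pos_iff.1 (by omega)).1
    exact ⟨(Classical.arbitrary S : I)⟩
  let e : ℕ → I := fun m => if hm : m < N then ((eqv.symm ⟨m, hm.trans hcard⟩ : S) : I) else
    Classical.arbitrary I
  have heS : ∀ m < N, e m ∈ S := by
    intro m hm
    simp only [e, dif_pos hm]
    exact (eqv.symm ⟨m, hm.trans hcard⟩).2
  have heinj : ∀ m m', m < N → m' < N → e m = e m' → m = m' := by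
    intro m m' hm hm' he
    simp only [e, dif_pos hm, dif_pos hm'] at he
    have := eqv.symm.injective (Subtype.ext he)
    exact congrArg Fin.val this
  obtain ⟨j, hj, hjN, hχ⟩ := hN fun y θ => f fun i => θ (wd e y i)
  have hejinj : ∀ a b : Fin (4 * n + 2), e (j a) = e (j b) → a = b := fun a b hab =>
    hj.injective (heinj _ _ (hjN a) (hjN b) hab)
  let E : ℕ → I := fun m => if hm : m < 4 * n + 2 then e (j ⟨m, hm⟩) else
    Classical.arbitrary I
  have hE : ∀ (m : ℕ) (hm : m < 4 * n + 2), E m = e (j ⟨m, hm⟩) := fun m hm => by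
    simp only [E, dif_pos hm]
  have h2k : 2 * (2 * n + 1) = 4 * n + 2 := by ring
  have hi1 : Function.Injective fun m : Fin (4 * n + 1) => e (j m.succ) := fun a b hab =>
    Fin.succ_injective _ (hejinj _ _ hab)
  have hi2 : Function.Injective fun m : Fin (4 * n + 1) => e (j m.castSucc) := fun a b hab =>
    Fin.castSucc_injective _ (hejinj _ _ hab)
  have key := train hk hctx E (by
      intro m m' hm hm' he
      rw [h2k] at hm hm'
      rw [hE m hm, hE m' hm'] at he
      exact congrArg Fin.val (hejinj _ _ he))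
    (fun i => (wd e (fun m : Fin (4 * n + 1) => j m.succ) i : ℕ))
    (fun i => (wd e (fun m : Fin (4 * n + 1) => j m.castSucc) i : ℕ))
    (by
      intro m hm
      rw [h2k] at hm
      rw [hE m hm]
      rcases Nat.eq_zero_or_pos m with rfl | hpos
      · rw [wd_zero]
        · rfl
        · intro m' he
          have := hejinj _ _ he
          exact (Fin.succ_ne_zero m') this
      · obtain ⟨m', rfl⟩ : ∃ m', m = m' + 1 := ⟨m - 1, by omega⟩
        have hm' : m' < 4 * n + 1 := by omega
        exact congrArg Fin.val (wd_eq (y := fun m : Fin (4 * n + 1) => j m.succ) hi1 ⟨m', hm'⟩))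
    (by
      intro i hi
      rw [wd_zero]
      · rfl
      · intro m he
        refine hi (m.succ : Fin (4 * n + 2)) (by rw [h2k]; exact m.succ.2) ?_
        rw [hE _ m.succ.2]
        exact he)
    (by
      intro m hm
      rw [h2k] at hm
      have hm' : m < 4 * n + 1 := by omega
      rw [hE m (by omega)]
      exact congrArg Fin.val
        (wd_eq (y := fun m : Fin (4 * n + 1) => j m.castSucc) hi2 ⟨m, hm'⟩))
    (by
      have hl : 2 * (2 * n + 1) - 1 < 4 * n + 2 := by omega
      rw [hE _ hl, wd_zero]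
      · rfl
      · intro m he
        have := congrArg Fin.val (hejinj _ _ he)
        have h2 := m.2
        simp only [Fin.val_castSucc] at this
        omega)
    (by
      intro i hi
      rw [wd_zero]
      · rfl
      · intro m he
        refine hi (m.castSucc : Fin (4 * n + 2)) (by rw [h2k]; exact m.castSucc.2) ?_
        rw [hE _ m.castSucc.2]
        exact he)
    (by
      intro θ
      exact (congrFun hχ fun x => θ x).symm)
  have hl : 2 * (2 * n + 1) - 1 < 4 * n + 2 := by omega
  rw [hE _ hl] at key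
  exact heS _ (hjN _) key

/-- For every finite graph with a two-dimensional potential the homomorphisms from the powers of an
odd cycle have a bounded selection. -/
theorem boundedSelection [Finite T] (hs : ∀ u v, R u v → R v u) (h : TwoPotential R) (n : ℕ) :
    BoundedSelection (graph (cyc (2 * n + 1))) (graph R) := by
  obtain ⟨g, c, h1, h2, h3, h4⟩ := h
  have hP : Pot R g c := ⟨hs, h1, h2, h3, h4⟩
  have hk : Odd (2 * n + 1) := ⟨n, rfl⟩
  obtain ⟨N, hN⟩ := sel_bound (R := R) hP n
  refine ⟨1, N, fun _ _ => 0, fun I f => {i | par (2 * n + 1) g c f {i} ≠ 0},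
    fun I _ _ f hf => hN I f hf, fun I J _ _ _ π f hf _ => ?_⟩
  have hctx : Ctx R g c (2 * n + 1) (dat (2 * n + 1) f) := ctx_dat hP hk hf
  have hctx' : Ctx R g c (2 * n + 1) (dat (2 * n + 1) (minor π f)) :=
    ctx_dat hP hk (isPoly_minor hf)
  have e1 : par (2 * n + 1) g c (minor π f) Set.univ ≠ 0 := by
    rw [par_univ hk hctx']
    exact one_ne_zero
  obtain ⟨j, -, hj⟩ := par_exists hctx' Set.univ (Set.toFinite _) e1
  have hj' : par (2 * n + 1) g c f (π ⁻¹' {j}) ≠ 0 := hj
  obtain ⟨i, hi, hi'⟩ := par_exists hctx (π ⁻¹' {j}) (Set.toFinite _) hj'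
  refine ⟨j, ⟨i, hi', hi⟩, hj⟩

end Pool.Agent.H50.TP
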