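import Pool.Agent.H58.SF.Asm
import Pool.Agent.H50.TP.Sel
import Pool.Agent.H50.TP.Ex

/-!
# Graphs with a homomorphism to a finite graph with a two-dimensional potential
-/

set_option autoImplicit false

namespace Pool.Agent.H50.TP

open Pool.Agent.H68.BP Pool.Agent.H58.SF

/-- There is a homomorphism from `E` to a finite undirected graph with a two-dimensional
potential. -/
def TwoPotGraph {D : Type} (E : D → D → Prop) : Prop :=
  ∃ (T : Type) (R : T → T → Prop) (r : D → T), Finite T ∧ (∀ u v, R u v → R v u) ∧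
    TwoPotential R ∧ ∀ x y, E x y → R (r x) (r y)

/-- graphs with a homomorphism to a finite graph with a two-dimensional potential which are not
bipartite pp-construct `K₃` -/
theorem graph_K3_two {D : Type} {E : D → D → Prop} (hD : Countable D) (hol : Oligo (graph E))
    (hs : ∀ x y, E x y → E y x) (hE : TwoPotGraph E) (h2 : ¬ Colorable E 2) :
    PPConstructsK3 (graph E) := by
  obtain ⟨T, R, r, hT, hR, hP, hr⟩ := hE
  obtain ⟨n, s, hsn⟩ := cyc_hom hs (odd_of_not_colorable hs h2)
  exact all_SF _ _ _ _ (graph (cyc (2 * n + 1))) (graph E) (graph R)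
    (inferInstanceAs (Finite (ZMod (2 * n + 1)))) hD hol ⟨s, hsn⟩ ⟨r, fun _ _ hx => hr _ _ hx⟩
    (pf_BS _ _ _ _ _ (boundedSelection hR hP n))

/-- graphs with a colouring with four colours -/
theorem twoPotGraph_four {D : Type} {E : D → D → Prop} (h : Colorable E 4) : TwoPotGraph E := by
  obtain ⟨c, hc⟩ := h
  exact ⟨Fin 4, fun i j => i ≠ j, c, inferInstance, fun _ _ h => h.symm, twoPotential_four, hc⟩

/-- graphs with a homomorphism to a finite graph without loops in which no two vertices have three
common neighbours -/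
theorem twoPotGraph_no_K23 {D T : Type} {E : D → D → Prop} {R : T → T → Prop} (hT : Finite T)
    (hs : ∀ u v, R u v → R v u) (hl : ∀ u, ¬ R u u)
    (h : ∀ a a' a'' b b', b ≠ b' → R a b → R a b' → R a' b → R a' b' → R a'' b → R a'' b' →
      a = a' ∨ a' = a'' ∨ a = a'') (r : D → T) (hr : ∀ x y, E x y → R (r x) (r y)) :
    TwoPotGraph E :=
  ⟨T, R, r, hT, hs, twoPotential_of_no_K23 hs hl h, hr⟩

end Pool.Agent.H50.TP
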