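import Pool.Agent.H50.TP.Defs

/-!
# Two-dimensional potentials: bounded selection

For every finite graph with a two-dimensional potential the homomorphisms from the powers of an odd
cycle have a bounded selection.
-/

set_option autoImplicit false

namespace Pool.Agent.H50.TP

open Pool.Agent.H68.BP Pool.Agent.H58.SF

variable {I T : Type}
variable {R : T → T → Prop} {g : T → T → ZMod 2} {c : T → T → T → T → ZMod 2}

/-! ### The potential of the cochain -/

/-- All properties of the data. -/
structure Ctx (R : T → T → Prop) (g : T → T → ZMod 2) (c : T → T → T → T → ZMod 2) (k : ℕ)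
    (D : Dat I T) : Prop where
  pot : Pot R g c
  good : Good R D
  sym : Sym k D
  perA : ∀ (p m : I → ℕ), D.A (fun i => p i + 2 * k * m i) = D.A p
  perB : ∀ (p m : I → ℕ), D.B (fun i => p i + 2 * k * m i) = D.B p

theorem ctx_dat (h : Pot R g c) {k : ℕ} (hk : Odd k) {f : (I → ZMod k) → T}
    (hf : IsPoly (graph (cyc k)) (graph R) f) : Ctx R g c k (dat k f) where
  pot := h
  good := good_dat hf
  sym := sym_dat hk f
  perA p m := by
    show f _ = f _
    congr 1
    funext i
    exact ae_add_two_mul k (p i) (m i)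
  perB p m := by
    show f _ = f _
    congr 1
    funext i
    exact be_add_two_mul k (p i) (m i)

theorem Ph_self {k : ℕ} {D : Dat I T} (h : Ctx R g c k D) (p : I → ℕ) : Ph k g c D p p = 0 := by
  have := Ph_closed h.pot h.good h.sym (le_refl p) (le_refl p) (fun i => Nat.le_succ (p i))
  simpa using this

/-- the potential -/
def ph (k : ℕ) (g : T → T → ZMod 2) (c : T → T → T → T → ZMod 2) (D : Dat I T) (M : ℕ)
    (p : I → ℕ) : ZMod 2 :=
  ∑ j ∈ Finset.range M, Ph k g c D (ct p j) (ct p (j + 1))

theorem ct_mono {p q : I → ℕ} (h : p ≤ q) (j : ℕ) : ct p j ≤ ct q j :=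
  fun i => min_le_min_right j (h i)

theorem ct_succ (p : I → ℕ) (j : ℕ) : ct p j ≤ ct p (j + 1) :=
  fun i => min_le_min_left (p i) (Nat.le_succ j)

theorem ct_sh {p q : I → ℕ} (h : q ≤ sh p 1) (j : ℕ) : ct q (j + 1) ≤ sh (ct p j) 1 := by
  intro i
  have := h i
  simp only [ct, sh] at *
  omega

theorem ph_step' {k : ℕ} {D : Dat I T} (h : Ctx R g c k D) {p q : I → ℕ} (h1 : p ≤ q)
    (h2 : q ≤ sh p 1) (M : ℕ) :
    ph k g c D M q + ph k g c D M p = Ph k g c D (ct p M) (ct q M) := by
  induction M with
  | zero =>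
    have e1 : ct p 0 = ct q 0 := by funext i; simp [ct]
    rw [e1, Ph_self h]
    simp [ph]
  | succ M ih =>
    have t1 := Ph_closed h.pot h.good h.sym (ct_mono h1 M) (ct_succ q M) (ct_sh h2 M)
    have t2 := Ph_closed h.pot h.good h.sym (ct_succ p M) (ct_mono h1 (M + 1)) (ct_sh h2 M)
    have e1 : ph k g c D (M + 1) q = ph k g c D M q + Ph k g c D (ct q M) (ct q (M + 1)) :=
      Finset.sum_range_succ _ _
    have e2 : ph k g c D (M + 1) p = ph k g c D M p + Ph k g c D (ct p M) (ct p (M + 1)) :=
      Finset.sum_range_succ _ _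
    rw [e1, e2]
    have z := z2 (Ph k g c D (ct p M) (ct p (M + 1)))
    linear_combination ih + t1 - t2 + z

theorem ct_eq {p : I → ℕ} {M : ℕ} (h : ∀ i, p i ≤ M) : ct p M = p := by
  funext i
  exact min_eq_left (h i)

theorem ph_step {k : ℕ} {D : Dat I T} (h : Ctx R g c k D) {p q : I → ℕ} (h1 : p ≤ q)
    (h2 : q ≤ sh p 1) {M : ℕ} (hM : ∀ i, q i ≤ M) :
    ph k g c D M q + ph k g c D M p = Ph k g c D p q := by
  have := ph_step' h h1 h2 M
  rwa [ct_eq hM, ct_eq fun i => (h1 i).trans (hM i)] at this

theorem Ph_per {k : ℕ} {D : Dat I T} (h : Ctx R g c k D) (p q m : I → ℕ) :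
    Ph k g c D (fun i => p i + 2 * k * m i) (fun i => q i + 2 * k * m i) = Ph k g c D p q := by
  have hA : ∀ (p : I → ℕ) (s : ℕ), D.A (sh (fun i => p i + 2 * k * m i) s) = D.A (sh p s) := by
    intro p s
    rw [← h.perA (sh p s) m]
    congr 1
    funext i
    simp only [sh]
    ring
  have hB : ∀ (p : I → ℕ) (s : ℕ), D.B (sh (fun i => p i + 2 * k * m i) s) = D.B (sh p s) := by
    intro p s
    rw [← h.perB (sh p s) m]
    congr 1
    funext i
    simp only [sh]
    ring
  unfold Ph st cc
  simp only [sh_sh, hA, hB, h.perA, h.perB]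

theorem ph_add {k : ℕ} {D : Dat I T} (h : Ctx R g c k D) (p m : I → ℕ) {M : ℕ}
    (hM : ∀ i, p i + 2 * k * m i ≤ M) :
    ph k g c D M (fun i => p i + 2 * k * m i) =
      ph k g c D M p + ph k g c D M (fun i => 2 * k * m i) := by
  have key : ∀ j, ph k g c D M (fun i => ct p j i + 2 * k * m i) =
      (∑ j' ∈ Finset.range j, Ph k g c D (ct p j') (ct p (j' + 1))) +
        ph k g c D M (fun i => 2 * k * m i) := by
    intro j
    induction j with
    | zero =>
      rw [Finset.sum_range_zero, zero_add]
      congr 1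
      funext i
      simp [ct]
    | succ j ih =>
      have h1 : (fun i => ct p j i + 2 * k * m i) ≤ fun i => ct p (j + 1) i + 2 * k * m i :=
        fun i => Nat.add_le_add_right (ct_succ p j i) _
      have h2 : (fun i => ct p (j + 1) i + 2 * k * m i) ≤
          sh (fun i => ct p j i + 2 * k * m i) 1 := by
        intro i
        simp only [ct, sh]
        omega
      have h3 : ∀ i, (fun i => ct p (j + 1) i + 2 * k * m i) i ≤ M := by
        intro i
        have := hM i
        have h4 : ct p (j + 1) i ≤ p i := min_le_left _ _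
        simp only
        omega
      have h5 := ph_step h h1 h2 h3
      rw [Ph_per h, ih] at h5
      rw [Finset.sum_range_succ]
      have z := z2 (∑ j' ∈ Finset.range j, Ph k g c D (ct p j') (ct p (j' + 1)))
      have z' := z2 (ph k g c D M (fun i => 2 * k * m i))
      linear_combination h5 - z - z'
  have h6 := key M
  have h7 : ct p M = p := ct_eq fun i => le_trans (Nat.le_add_right _ _) (hM i)
  rw [h7] at h6
  exact h6

/-! ### The total -/

theorem ae_succ_odd {k j : ℕ} (hj : Odd j) : ae k (j + 1) = ae k j := by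
  unfold ae
  rw [if_pos hj.add_one, if_neg (Nat.not_even_iff_odd.2 hj)]
  push_cast
  rfl

theorem be_succ_even {k j : ℕ} (hj : Even j) : be k (j + 1) = be k j := by
  unfold be
  rw [if_pos hj, if_neg (Nat.not_even_iff_odd.2 hj.add_one)]
  push_cast
  rfl

theorem ph_total {k : ℕ} (hk : Odd k) {f : (I → ZMod k) → T}
    (h : Ctx R g c k (dat k f)) :
    ph k g c (dat k f) (2 * k) (fun _ => 2 * k) = 1 := by
  set U : ℕ → T := fun j => f (fun _ => ae k j) with hU
  set V : ℕ → T := fun j => f (fun _ => be k j) with hV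
  have hUV : ∀ j, R (U j) (V j) := fun j =>
    h.good (fun _ => j) (fun _ => j) (fun _ => j) le_rfl (fun i => Nat.le_succ _) le_rfl
      (fun i => Nat.le_succ _)
  have hU1V : ∀ j, R (U (j + 1)) (V j) := fun j =>
    h.good (fun _ => j) (fun _ => j + 1) (fun _ => j) (fun i => Nat.le_succ _) (fun i => le_rfl)
      le_rfl (fun i => Nat.le_succ _)
  have hUV1 : ∀ j, R (U j) (V (j + 1)) := fun j =>
    h.good (fun _ => j) (fun _ => j) (fun _ => j + 1) le_rfl (fun i => Nat.le_succ _)
      (fun i => Nat.le_succ _) (fun i => le_rfl)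
  have hUk : ∀ j, U (k + j) = V j := fun j => by
    rw [hU, hV]
    simp only
    rw [Nat.add_comm k j, ae_add_self hk]
  have hVk : ∀ j, V (k + j) = U j := fun j => by
    rw [hU, hV]
    simp only
    rw [Nat.add_comm k j, be_add_self hk]
  have hstep : ∀ j, Ph k g c (dat k f) (fun _ => j) (fun _ => j + 1) =
      g (U j) (V j) + g (U (j + 1)) (V j) := by
    intro j
    have e1 : c (V j) (V (j + 1)) (U j) (U (j + 1)) = 0 := by
      rcases Nat.even_or_odd j with hj | hj
      · have : V (j + 1) = V j := by rw [hV]; simp only; rw [be_succ_even hj]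
        rw [this]
        exact h.pot.zero1 (h.pot.symm _ _ (hUV j)) (h.pot.symm _ _ (hU1V j))
      · have : U (j + 1) = U j := by rw [hU]; simp only; rw [ae_succ_odd hj]
        rw [this]
        exact h.pot.zero2 (h.pot.symm _ _ (hUV j)) (h.pot.symm _ _ (hUV1 j))
    have e2 : ∀ s, st c (dat k f) (sh (fun _ => j) s) (sh (fun _ => j + 1) s) = 0 := by
      intro s
      have e3 : cc c (dat k f) (sh (fun _ => j) s) (sh (fun _ => j + 1) s)
          (sh (sh (fun _ => j) s) 1) = 0 := by
        have : sh (sh (fun _ : I => j) s) 1 = sh (fun _ => j + 1) s := by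
          funext i; simp only [sh]; ring
        rw [this]
        have a1 : sh (fun _ : I => j + 1) s = fun _ => (j + s) + 1 := by
          funext i; simp only [sh]; ring
        rw [a1]
        exact h.pot.zero1 (hU1V (j + s)) (hUV (j + s + 1))
      have e4 : cc c (dat k f) (sh (fun _ => j + 1) s) (sh (sh (fun _ => j) s) 1)
          (sh (sh (fun _ => j + 1) s) 1) = 0 := by
        have : sh (sh (fun _ : I => j) s) 1 = sh (fun _ => j + 1) s := by
          funext i; simp only [sh]; ring
        rw [this]
        have a1 : sh (fun _ : I => j + 1) s = fun _ => (j + s) + 1 := by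
          funext i; simp only [sh]; ring
        rw [a1]
        exact h.pot.zero2 (hUV (j + s + 1)) (hU1V (j + s + 1))
      unfold st
      rw [e3, e4, add_zero]
    unfold Ph
    rw [Finset.sum_eq_zero fun s _ => e2 s, add_zero]
    have e5 : c ((dat k f).B fun _ => j) ((dat k f).B fun _ => j + 1) ((dat k f).A fun _ => j)
        ((dat k f).A fun _ => j + 1) = 0 := e1
    rw [e5, add_zero]
    rfl
  have h1 : ph k g c (dat k f) (2 * k) (fun _ => 2 * k) =
      ∑ j ∈ Finset.range (2 * k), (g (U j) (V j) + g (U (j + 1)) (V j)) := by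
    refine Finset.sum_congr rfl fun j hj => ?_
    have hj' := Finset.mem_range.1 hj
    rw [← hstep j]
    congr 1
    · funext i
      exact min_eq_right hj'.le
    · funext i
      exact min_eq_right hj'
  rw [h1, two_mul, Finset.sum_range_add, ← Finset.sum_add_distrib]
  have h2 : ∀ j, (g (U j) (V j) + g (U (j + 1)) (V j)) +
      (g (U (k + j)) (V (k + j)) + g (U (k + j + 1)) (V (k + j))) =
      g (U j) (V j) + g (U (j + 1)) (V (j + 1)) := by
    intro j
    rw [hUk, hVk, Nat.add_assoc k j 1, hUk]
    have o1 := h.pot.ori _ _ (hUV j)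
    have o2 := h.pot.ori _ _ (hUV (j + 1))
    rcases Nat.even_or_odd j with hj | hj
    · have : V (j + 1) = V j := by rw [hV]; simp only; rw [be_succ_even hj]
      rw [this]
      linear_combination z2 (g (V j) (U j))
    · have : U (j + 1) = U j := by rw [hU]; simp only; rw [ae_succ_odd hj]
      rw [this] at o2 ⊢
      have hh : (2 : ZMod 2) = 0 := rfl
      linear_combination o1 + o2 + hh + z2 (g (U j) (V j)) - z2 (g (U j) (V j)) -
        z2 (g (U j) (V (j + 1)))
  rw [Finset.sum_congr rfl fun j _ => h2 j]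
  have h3 : ∀ n, ∑ j ∈ Finset.range n, (g (U j) (V j) + g (U (j + 1)) (V (j + 1))) =
      g (U 0) (V 0) + g (U n) (V n) := by
    intro n
    induction n with
    | zero => simp [z2]
    | succ n ih =>
      rw [Finset.sum_range_succ, ih]
      linear_combination z2 (g (U n) (V n))
  rw [h3]
  have h4 := hUk 0
  have h5 := hVk 0
  rw [Nat.add_zero] at h4 h5
  rw [h4, h5]
  exact h.pot.ori _ _ (hUV 0)

end Pool.Agent.H50.TP
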